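import Mathlib
import Pool.Agent.Lib.MP_274522_pr.NotTwo

/-!
# A forward Brownian motion with an independence time and a backward Brownian time that is not a
two-sided Brownian motion

Time is split in blocks of length one.  Let `ξ` be the array of Gaussian coordinates (in the Schauder
basis) of a two-sided Brownian motion.  For every `k` change the sign of the increment over the far
block `[-N k, -N k + 1]` (`N k` growing very fast) so that it agrees with the sign of the `k`-th
coordinate of the block `[-1, 0]`.  The backward process from `-1` is still Brownian, the two sides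
of `0` are independent, and since each far block reveals only one bit a filling argument produces
randomised times `S_n → -∞` from which the process is Brownian.  But the path near any time would
have to be independent of the far past if the process were a two-sided Brownian motion, and it is
not near time `0`.
-/

set_option autoImplicit false
open MeasureTheory ProbabilityTheory Filter
open scoped Topology ENNReal NNReal

namespace Pool.Agent.Results.MP_274522_pr.Disproof

/-- The process `X` seen forward from the random time `T`: `t ↦ X_{T+t} - X_T`, `t ≥ 0`. -/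
def fwd {Ω : Type} (X : ℝ → Ω → ℝ) (T : Ω → ℝ) (t : ℝ≥0) (ω : Ω) : ℝ :=
  X (T ω + t) ω - X (T ω) ω

/-- The process `X` seen backward from the random time `T`: `t ↦ X_{T-t} - X_T`, `t ≥ 0`. -/
def bwd {Ω : Type} (X : ℝ → Ω → ℝ) (T : Ω → ℝ) (t : ℝ≥0) (ω : Ω) : ℝ :=
  X (T ω - t) ω - X (T ω) ω

/-- Forward Brownian motion: there are random times `S n → -∞` from each of which the forward
process is a standard Brownian motion (`S n` is the random time with index `-n`). -/
def IsFBM {Ω : Type} [MeasurableSpace Ω] (P : Measure Ω) (X : ℝ → Ω → ℝ) : Prop :=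
  ∃ S : ℕ → Ω → ℝ, (∀ n, Measurable (S n)) ∧
    (∀ᵐ ω ∂P, Tendsto (fun n => S n ω) atTop atBot) ∧
    ∀ n, IsBrownianReal (fwd X (S n)) P

/-- Two-sided Brownian motion: there is a random time from which the forward and the backward
process are independent standard Brownian motions. -/
def Is2BM {Ω : Type} [MeasurableSpace Ω] (P : Measure Ω) (X : ℝ → Ω → ℝ) : Prop :=
  ∃ S : Ω → ℝ, Measurable S ∧ IsBrownianReal (fwd X S) P ∧ IsBrownianReal (bwd X S) P ∧
    IndepFun (fun ω t => fwd X S t ω) (fun ω t => bwd X S t ω) P

/-- There is a forward Brownian motion `X` with a (even deterministic) time `T` at which the forward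
and backward processes are independent and a (even deterministic) time `S` from which the backward
process is Brownian, which is not a two-sided Brownian motion. -/
theorem result : ∃ (Ω : Type) (_ : MeasurableSpace Ω) (P : Measure Ω) (_ : IsProbabilityMeasure P)
    (X : ℝ → Ω → ℝ),
    (∀ t, Measurable (X t)) ∧ (∀ ω, Continuous fun t => X t ω) ∧
    IsFBM P X ∧
    (∃ S T : Ω → ℝ, Measurable S ∧ Measurable T ∧ (∀ ω, S ω = -1) ∧ (∀ ω, T ω = 0) ∧
      IndepFun (fun ω t => fwd X T t ω) (fun ω t => bwd X T t ω) P ∧
      IsBrownianReal (bwd X S) P) ∧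
    ¬ Is2BM P X := by
  have hcf : ∀ (T : Lib.MP_274522_pr.Om × ℝ → ℝ) (p : Lib.MP_274522_pr.Om × ℝ),
      Continuous fun t : ℝ≥0 => fwd (fun t p => Lib.MP_274522_pr.XX t p.1) T t p := by
    intro T p
    have h := Lib.MP_274522_pr.continuous_XX p.1
    have h2 : Continuous fun t : ℝ≥0 => T p + (t : ℝ) := by fun_prop
    exact (h.comp h2).sub continuous_const
  have hcb : ∀ (T : Lib.MP_274522_pr.Om × ℝ → ℝ) (p : Lib.MP_274522_pr.Om × ℝ),
      Continuous fun t : ℝ≥0 => bwd (fun t p => Lib.MP_274522_pr.XX t p.1) T t p := by
    intro T p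
    have h := Lib.MP_274522_pr.continuous_XX p.1
    have h2 : Continuous fun t : ℝ≥0 => T p - (t : ℝ) := by fun_prop
    exact (h.comp h2).sub continuous_const
  have hfst : MeasurePreserving (Prod.fst : Lib.MP_274522_pr.Om × ℝ → Lib.MP_274522_pr.Om)
      Lib.MP_274522_pr.QU Lib.MP_274522_pr.QQ := ⟨measurable_fst, Lib.MP_274522_pr.map_fst_QU⟩
  refine ⟨Lib.MP_274522_pr.Om × ℝ, inferInstance, Lib.MP_274522_pr.QU, inferInstance,
    fun t p => Lib.MP_274522_pr.XX t p.1, fun t => (Lib.MP_274522_pr.measurable_XX t).comp
      measurable_fst, fun p => Lib.MP_274522_pr.continuous_XX p.1, ?_,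
    ⟨fun _ => -1, fun _ => 0, measurable_const, measurable_const, fun _ => rfl, fun _ => rfl,
      ?_, ?_⟩, ?_⟩
  · choose J hJm hJn hJl using Lib.MP_274522_pr.exists_J
    refine ⟨fun n p => -(J n p : ℝ), fun n => ?_, Eventually.of_forall fun p => ?_, fun n => ?_⟩
    · have h : Measurable fun p => (J n p : ℝ) := measurable_from_nat.comp (hJm n)
      exact h.neg
    · refine tendsto_neg_atTop_atBot.comp ?_
      refine tendsto_atTop_mono (fun n => ?_) tendsto_natCast_atTop_atTop
      exact_mod_cast hJn n p
    · exact ⟨Lib.MP_274522_pr.fwd_QU (J n) (hJm n) (hJl n), Eventually.of_forall fun p =>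
        hcf _ p⟩
  · have h := Lib.MP_274522_pr.indep_QQ
    rw [← Lib.MP_274522_pr.map_fst_QU] at h
    refine Lib.MP_274522_pr.indepFun_comp_of_map measurable_fst ?_ ?_ h
    · exact measurable_pi_lambda _ fun t => (Lib.MP_274522_pr.measurable_XX _).sub
        (Lib.MP_274522_pr.measurable_XX _)
    · exact measurable_pi_lambda _ fun t => (Lib.MP_274522_pr.measurable_XX _).sub
        (Lib.MP_274522_pr.measurable_XX _)
  · refine ⟨⟨fun I => ?_⟩, Eventually.of_forall fun p => hcb _ p⟩
    have h := (Lib.MP_274522_pr.bwd_QQ.hasLaw I).comp hfst.hasLaw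
    exact h
  · rintro ⟨S, hS, hf, hb, hi⟩
    exact Lib.MP_274522_pr.not_two_sided S hS hf.toIsPreBrownianReal hb.toIsPreBrownianReal hi

end Pool.Agent.Results.MP_274522_pr.Disproof
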